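import Pool.Agent.TH316.AT.Ex

/-!
# Existence of the solution of the Parisi equation: assembly
-/

set_option autoImplicit false

open MeasureTheory ProbabilityTheory Set Filter Topology

namespace Pool.TH316.AT

open Pool.TH198.AT

lemma ck_mem (t : ℝ) : ck t ∈ Icc (0 : ℝ) 1 := by
  unfold ck
  exact ⟨le_max_left _ _, max_le zero_le_one (min_le_right _ _)⟩

lemma ck_eq {t : ℝ} (ht : t ∈ Icc (0 : ℝ) 1) : ck t = t := by
  unfold ck
  rw [min_eq_left ht.2, max_eq_right ht.1]

lemma BC.mono {C C' : ℝ} {g : ℝ → ℝ → ℝ} (h : BC C g) (hC : C ≤ C') : BC C' g :=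
  ⟨h.1, fun t x => (h.2 t x).trans hC⟩

lemma BC.add {C C' : ℝ} {g g' : ℝ → ℝ → ℝ} (h : BC C g) (h' : BC C' g') :
    BC (C + C') (fun t x => g t x + g' t x) :=
  ⟨h.1.add h'.1, fun t x => (abs_add_le _ _).trans (add_le_add (h.2 t x) (h'.2 t x))⟩

lemma hub_quad (v w : ℝ) : |hub w - hub v - 2 * cl 1 v * (w - v)| ≤ (w - v) ^ 2 := by
  have hv : (|v| ≤ 1 ∧ cl 1 v = v ∧ hub v = v ^ 2) ∨ (1 < v ∧ cl 1 v = 1 ∧ hub v = 2 * v - 1) ∨
      (v < -1 ∧ cl 1 v = -1 ∧ hub v = -2 * v - 1) := by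
    rcases le_or_gt (|v|) 1 with h | h
    · left
      refine ⟨h, ?_, by unfold hub; rw [if_pos h]⟩
      obtain ⟨h1, h2⟩ := abs_le.1 h
      unfold cl
      rw [min_eq_left h2, max_eq_right h1]
    · right
      rcases lt_abs.1 h with h1 | h1
      · left
        refine ⟨h1, ?_, ?_⟩
        · unfold cl
          rw [min_eq_right h1.le]
          exact max_eq_right (by norm_num)
        · unfold hub
          rw [if_neg (not_le.2 h), abs_of_pos (by linarith)]
      · right
        refine ⟨by linarith, ?_, ?_⟩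
        · unfold cl
          rw [min_eq_left (by linarith)]
          exact max_eq_left (by linarith)
        · unfold hub
          rw [if_neg (not_le.2 h), abs_of_neg (by linarith)]
          ring
  have hw : (|w| ≤ 1 ∧ hub w = w ^ 2) ∨ (1 < w ∧ hub w = 2 * w - 1) ∨
      (w < -1 ∧ hub w = -2 * w - 1) := by
    rcases le_or_gt (|w|) 1 with h | h
    · left
      exact ⟨h, by unfold hub; rw [if_pos h]⟩
    · right
      rcases lt_abs.1 h with h1 | h1
      · left
        refine ⟨h1, ?_⟩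
        unfold hub
        rw [if_neg (not_le.2 h), abs_of_pos (by linarith)]
      · right
        refine ⟨by linarith, ?_⟩
        unfold hub
        rw [if_neg (not_le.2 h), abs_of_neg (by linarith)]
        ring
  rw [abs_le]
  rcases hv with ⟨h1, h2, h3⟩ | ⟨h1, h2, h3⟩ | ⟨h1, h2, h3⟩ <;>
    rcases hw with ⟨k1, k2⟩ | ⟨k1, k2⟩ | ⟨k1, k2⟩ <;>
    rw [h2, h3, k2] <;>
    (try obtain ⟨h4, h5⟩ := abs_le.1 h1) <;> (try obtain ⟨k4, k5⟩ := abs_le.1 k1) <;>
    constructor <;> nlinarith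

lemma hasDerivAt_hub (v : ℝ) : HasDerivAt hub (2 * cl 1 v) v := by
  rw [hasDerivAt_iff_isLittleO]
  refine Asymptotics.IsBigO.trans_isLittleO (g := fun w => ‖w - v‖ ^ 2) ?_
    (Asymptotics.isLittleO_pow_sub_sub v one_lt_two)
  refine Asymptotics.IsBigO.of_bound 1 (Eventually.of_forall fun w => ?_)
  have h := hub_quad v w
  rw [Real.norm_eq_abs, Real.norm_eq_abs, Real.norm_eq_abs, abs_pow, abs_abs, sq_abs, one_mul,
    smul_eq_mul]
  rw [mul_comm (w - v)]
  exact h

lemma continuous_hub : Continuous hub :=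
  continuous_iff_continuousAt.2 fun v => (hasDerivAt_hub v).continuousAt

lemma abs_hub_le (u : ℝ) : |hub u| ≤ 1 + 2 * |u| := by
  unfold hub
  split_ifs with h
  · rw [abs_pow, sq]
    nlinarith [abs_nonneg u]
  · rw [abs_of_nonneg (by linarith [not_le.1 h])]
    linarith

theorem t_EX (hCT : St_CT) (hDX : St_DX) (hTI : St_TI) (hPT : St_PT) (hFP : St_FP) (hMX : St_MX) :
    St_EX := by
  intro β ζ hβ hζ
  obtain ⟨C, g, hg, hfix⟩ := hFP β ζ hβ hζ
  obtain ⟨hP1, hP2, hP3⟩ := hPT β hβ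
  obtain ⟨hS1, hS2⟩ := hCT β C ζ g hβ hζ hg
  have hC0 : 0 ≤ C := (abs_nonneg _).trans (hg.2 0 0)
  have hWd : ∀ t x, HasDerivAt (fun x => WW β ζ g (ck t) x) (ZZ β ζ g (ck t) x) x := by
    intro t x
    exact ((hP3 (ck t) (ck_mem t) x).2.1).add ((hDX β C ζ g g hβ hζ hg).1 (ck t) (ck_mem t) x)
  have hWB : BC (1 + β ^ 2 * C) (fun t x => WW β ζ g (ck t) x) := hP1.add hS1
  have hZB : BC (1 + 2 * β * C) (fun t x => ZZ β ζ g (ck t) x) := hP2.add hS2
  set G : ℝ → ℝ → ℝ := fun t x => hub (WW β ζ g (ck t) x) with hG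
  set D : ℝ := max (max C (1 + 2 * (1 + β ^ 2 * C))) (max (1 + β ^ 2 * C) (1 + 2 * β * C)) with hD
  have hgD : BC D g := hg.mono ((le_max_left _ _).trans (le_max_left _ _))
  have hGD : BC D G := by
    refine ⟨continuous_hub.comp hWB.1, fun t x => ?_⟩
    refine (abs_hub_le _).trans (le_trans ?_ ((le_max_right _ _).trans (le_max_left _ _)))
    have := hWB.2 t x
    linarith
  have hWD : BC D (fun t x => WW β ζ g (ck t) x) :=
    hWB.mono ((le_max_left _ _).trans (le_max_right _ _))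
  have hZD : BC D (fun t x => ZZ β ζ g (ck t) x) :=
    hZB.mono ((le_max_right _ _).trans (le_max_right _ _))
  have hGd : ∀ t x, HasDerivAt (G t) (g t x) x := by
    intro t x
    have h1 := (hasDerivAt_hub (WW β ζ g (ck t) x)).comp x (hWd t x)
    rw [hfix t x]
    exact h1
  obtain ⟨-, hGS⟩ := hDX β D ζ g G hβ hζ hgD
  have hGS' := hGS hGD hGd
  have hTI' := hTI β D ζ g G hβ hζ hgD hGD hGd
  set f : ℝ → ℝ → ℝ := fun t x => PP β (fun x => Real.log (Real.cosh x)) t x + SP β ζ G t x with hf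
  have hfd : ∀ t ∈ Icc (0 : ℝ) 1, ∀ x, HasDerivAt (f t) (WW β ζ g (ck t) x) x := by
    intro t ht x
    rw [ck_eq ht]
    exact ((hP3 t ht x).1).add (hGS' t ht x)
  have hint : ∀ t ∈ Icc (0 : ℝ) 1, ∀ x, f t x = Real.log (Real.cosh x) +
      ∫ r in t..1, β ^ 2 * (ZZ β ζ g (ck r) x + ζ r * hub (WW β ζ g (ck r) x)) := by
    intro t ht x
    have h1 := (hP3 t ht x).2.2
    have h2 := hTI' t ht x
    have hsub : uIcc t 1 ⊆ Icc (0 : ℝ) 1 := by
      rw [uIcc_of_le ht.2]
      exact Icc_subset_Icc_left ht.1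
    have hi1 : IntervalIntegrable (fun r => β ^ 2 * PP β (fun x => sech x ^ 2) r x) volume t 1 := by
      refine ContinuousOn.intervalIntegrable ?_
      refine ContinuousOn.congr (f := fun r => β ^ 2 * PP β (fun x => sech x ^ 2) (ck r) x) ?_ ?_
      · exact (continuous_const.mul (hP2.1.comp (continuous_id.prodMk continuous_const))).continuousOn
      · intro r hr
        simp only []
        rw [ck_eq (hsub hr)]
    have hζi : IntervalIntegrable ζ volume t 1 :=
      MonotoneOn.intervalIntegrable (hζ.1.mono hsub)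
    have hi2 : IntervalIntegrable (fun r => β ^ 2 * (SD β ζ g r x + ζ r * G r x)) volume t 1 := by
      refine IntervalIntegrable.const_mul ?_ _
      refine IntervalIntegrable.add ?_ ?_
      · refine ContinuousOn.intervalIntegrable ?_
        refine ContinuousOn.congr (f := fun r => SD β ζ g (ck r) x) ?_ ?_
        · exact (hS2.1.comp (continuous_id.prodMk continuous_const)).continuousOn
        · intro r hr
          simp only []
          rw [ck_eq (hsub hr)]
      · refine hζi.mul_continuousOn ?_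
        exact (hGD.1.comp (continuous_id.prodMk continuous_const)).continuousOn
    change PP β (fun x => Real.log (Real.cosh x)) t x + SP β ζ G t x = _
    rw [h1, h2, add_assoc, ← intervalIntegral.integral_add hi1 hi2]
    congr 1
    refine intervalIntegral.integral_congr fun r hr => ?_
    simp only [hG]
    rw [ck_eq (hsub hr)]
    unfold ZZ
    ring
  have hW1 := hMX β D ζ f (fun t x => WW β ζ g (ck t) x) (fun t x => ZZ β ζ g (ck t) x) hβ hζ
    (fun t ht x => ⟨hfd t ht x, hWd t x⟩) hWD hZD hint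
  refine ⟨f, fun t x => WW β ζ g (ck t) x, fun t x => ZZ β ζ g (ck t) x,
    fun t ht x => ⟨hfd t ht x, hWd t x⟩, hWD.1.continuousOn, hZD.1.continuousOn,
    ⟨D, fun t _ x => ⟨hWD.2 t x, hZD.2 t x⟩⟩, ?_⟩
  intro t ht x
  rw [hint t ht x]
  congr 1
  refine intervalIntegral.integral_congr fun r hr => ?_
  have hr' : r ∈ Icc (0 : ℝ) 1 := by
    rw [uIcc_of_le ht.2] at hr
    exact ⟨ht.1.trans hr.1, hr.2⟩
  have h3 := hW1 r hr' x
  simp only [] at h3 ⊢
  unfold hub
  rw [if_pos h3]

end Pool.TH316.AT
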