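import Pool.Agent.TH316.AT.Ex

/-!
# EX-TI: the integrated equation
-/

set_option autoImplicit false

open MeasureTheory ProbabilityTheory Set Filter Topology

namespace Pool.TH316.AT.TI

open Pool.TH198.AT Pool.TH316.AT

lemma int_abs : Integrable (fun y : ℝ => |y|) (gaussianReal 0 1) := by
  have h := (memLp_id_gaussianReal (μ := 0) (v := 1) 1).integrable (by norm_num)
  exact h.abs

noncomputable def A (g : ℝ → ℝ → ℝ) (x r θ : ℝ) : ℝ := E1 (fun y => y * g r (x + θ * y))

noncomputable def B (G : ℝ → ℝ → ℝ) (x r θ : ℝ) : ℝ := E1 (fun y => G r (x + θ * y))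

lemma A_cont {C : ℝ} {g : ℝ → ℝ → ℝ} (hg : BC C g) (x : ℝ) :
    Continuous (fun p : ℝ × ℝ => A g x p.1 p.2) := by
  unfold A E1
  refine continuous_of_dominated (bound := fun y => |y| * C) ?_ ?_ (int_abs.mul_const C) ?_
  · intro p
    refine Continuous.aestronglyMeasurable ?_
    exact continuous_id.mul (hg.1.comp (f := fun y : ℝ => (p.1, x + p.2 * y)) (by fun_prop))
  · intro p
    refine Eventually.of_forall fun y => ?_
    rw [norm_mul]
    exact mul_le_mul_of_nonneg_left (hg.2 _ _) (norm_nonneg _)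
  · refine Eventually.of_forall fun y => ?_
    exact continuous_const.mul (hg.1.comp (f := fun p : ℝ × ℝ => (p.1, x + p.2 * y)) (by fun_prop))

lemma A_bd {C : ℝ} {g : ℝ → ℝ → ℝ} (hg : BC C g) (x r θ : ℝ) :
    |A g x r θ| ≤ ∫ y, |y| * C ∂(gaussianReal 0 1) := by
  have h := norm_integral_le_of_norm_le (μ := gaussianReal 0 1)
    (f := fun y => y * g r (x + θ * y)) (int_abs.mul_const C) (Eventually.of_forall fun y => by
      rw [norm_mul]
      exact mul_le_mul_of_nonneg_left (hg.2 _ _) (norm_nonneg _))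
  exact h

lemma B_deriv {C : ℝ} {g G : ℝ → ℝ → ℝ} (hg : BC C g) (hG : BC C G)
    (hd : ∀ t x, HasDerivAt (G t) (g t x) x) (x r θ : ℝ) :
    HasDerivAt (B G x r) (A g x r θ) θ := by
  have h := hasDerivAt_integral_of_dominated_loc_of_deriv_le (μ := gaussianReal 0 1)
    (F := fun θ y => G r (x + θ * y)) (F' := fun θ y => y * g r (x + θ * y))
    (bound := fun y => |y| * C) (s := univ) (x₀ := θ) univ_mem ?_ ?_ ?_ ?_ (int_abs.mul_const C) ?_
  · exact h.2
  · refine Eventually.of_forall fun θ => Continuous.aestronglyMeasurable ?_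
    exact hG.1.comp (f := fun y : ℝ => (r, x + θ * y)) (by fun_prop)
  · refine Integrable.of_bound (Continuous.aestronglyMeasurable ?_) C
      (Eventually.of_forall fun y => hG.2 _ _)
    exact hG.1.comp (f := fun y : ℝ => (r, x + θ * y)) (by fun_prop)
  · refine Continuous.aestronglyMeasurable ?_
    exact continuous_id.mul (hg.1.comp (f := fun y : ℝ => (r, x + θ * y)) (by fun_prop))
  · refine Eventually.of_forall fun y θ _ => ?_
    rw [norm_mul]
    exact mul_le_mul_of_nonneg_left (hg.2 _ _) (norm_nonneg _)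
  · refine Eventually.of_forall fun y θ _ => ?_
    have h1 := (hd r (x + θ * y)).comp θ (((hasDerivAt_id θ).mul_const y).const_add x)
    have h2 : g r (x + θ * y) * (1 * y) = y * g r (x + θ * y) := by ring
    rw [h2] at h1
    exact h1

lemma B_eq {C : ℝ} {g G : ℝ → ℝ → ℝ} (hg : BC C g) (hG : BC C G)
    (hd : ∀ t x, HasDerivAt (G t) (g t x) x) (x r s w : ℝ) :
    B G x r (s * w) = G r x + ∫ u in (0 : ℝ)..w, s * A g x r (s * u) := by
  have h1 : ∀ u ∈ uIcc 0 w, HasDerivAt (fun u => B G x r (s * u)) (s * A g x r (s * u)) u := by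
    intro u _
    have h2 := (B_deriv hg hG hd x r (s * u)).comp u ((hasDerivAt_id u).const_mul s)
    have h3 : A g x r (s * u) * (s * 1) = s * A g x r (s * u) := by ring
    rw [h3] at h2
    exact h2
  have hc : Continuous (fun u => s * A g x r (s * u)) :=
    continuous_const.mul ((A_cont hg x).comp (f := fun u : ℝ => (r, s * u)) (by fun_prop))
  have h4 := intervalIntegral.integral_eq_sub_of_hasDerivAt h1 (hc.intervalIntegrable _ _)
  rw [h4]
  have h5 : B G x r (s * 0) = G r x := by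
    unfold B E1
    simp
  rw [h5]
  ring

lemma cutI (φ : ℝ → ℝ) (hφ : ∀ r, 1 < r → φ r = 0) {t α b : ℝ} (ht : t ≤ 1) (h1 : t ≤ α)
    (h2 : α ≤ b) (h3 : 1 ≤ b) :
    ∫ r in α..b, φ r = ∫ r in t..1, if α < r then φ r else 0 := by
  rw [intervalIntegral.integral_of_le h2, intervalIntegral.integral_of_le ht,
    ← integral_indicator measurableSet_Ioc, ← integral_indicator measurableSet_Ioc]
  congr 1
  funext r
  by_cases hr : 1 < r
  · rw [indicator_of_notMem (s := Ioc t 1) (fun h => absurd h.2 (not_le.2 hr))]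
    by_cases h4 : r ∈ Ioc α b
    · rw [indicator_of_mem h4, hφ r hr]
    · rw [indicator_of_notMem h4]
  · have hr' : r ≤ 1 := not_lt.1 hr
    by_cases h4 : α < r
    · rw [indicator_of_mem (s := Ioc α b) ⟨h4, hr'.trans h3⟩,
        indicator_of_mem (s := Ioc t 1) ⟨lt_of_le_of_lt h1 h4, hr'⟩, if_pos h4]
    · rw [indicator_of_notMem (s := Ioc α b) (fun h => h4 h.1)]
      by_cases h5 : r ∈ Ioc t 1
      · rw [indicator_of_mem h5, if_neg h4]
      · rw [indicator_of_notMem h5]

lemma cutW (h : ℝ → ℝ) {w : ℝ} (h0 : 0 ≤ w) (h1 : w ≤ 1) :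
    ∫ u in (0 : ℝ)..w, h u = ∫ u in (0 : ℝ)..1, if u < w then h u else 0 := by
  rw [intervalIntegral.integral_of_le h0, intervalIntegral.integral_of_le zero_le_one,
    integral_Ioc_eq_integral_Ioo,
    ← integral_indicator measurableSet_Ioo, ← integral_indicator measurableSet_Ioc]
  congr 1
  funext u
  by_cases h2 : u ∈ Ioo 0 w
  · rw [indicator_of_mem h2, indicator_of_mem (s := Ioc 0 1) ⟨h2.1, h2.2.le.trans h1⟩, if_pos h2.2]
  · rw [indicator_of_notMem h2]
    by_cases h3 : u ∈ Ioc (0 : ℝ) 1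
    · rw [indicator_of_mem h3, if_neg (fun h4 => h2 ⟨h3.1, h4⟩)]
    · rw [indicator_of_notMem h3]

lemma zt_meas {ζ : ℝ → ℝ} (hζ : IsCdf ζ) : Measurable (zt ζ) := by
  have h1 : Measurable (fun s => ζ (max 0 (min s 1))) := by
    refine Monotone.measurable ?_
    intro s s' h
    refine hζ.1 ⟨le_max_left _ _, max_le zero_le_one (min_le_right _ _)⟩
      ⟨le_max_left _ _, max_le zero_le_one (min_le_right _ _)⟩ ?_
    exact max_le_max le_rfl (min_le_min_right _ h)
  have h2 : zt ζ = fun s => if s ≤ 1 then ζ (max 0 (min s 1)) else 0 := by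
    funext s
    unfold zt
    split_ifs with h
    · rw [min_eq_left h]
    · rfl
  rw [h2]
  exact Measurable.ite measurableSet_Iic h1 measurable_const

lemma zt_bd {ζ : ℝ → ℝ} (hζ : IsCdf ζ) (s : ℝ) : |zt ζ s| ≤ 1 := by
  unfold zt
  split_ifs with h
  · have := hζ.2.1 (max 0 s) ⟨le_max_left _ _, max_le zero_le_one h⟩
    rw [abs_of_nonneg this.1]
    exact this.2
  · simp

lemma zt_eq (ζ : ℝ → ℝ) {s : ℝ} (h0 : 0 ≤ s) (h1 : s ≤ 1) : zt ζ s = ζ s := by
  unfold zt
  rw [if_pos h1, max_eq_right h0]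

lemma image_sq (t : ℝ) : (fun u : ℝ => t + u ^ 2) '' Ioc 0 1 = Ioc t (t + 1) := by
  ext r
  constructor
  · rintro ⟨u, hu, rfl⟩
    have h1 : 0 < u ^ 2 := by have := hu.1; positivity
    have h2 : u ^ 2 ≤ 1 := pow_le_one₀ hu.1.le hu.2
    exact ⟨by simp only []; linarith, by simp only []; linarith⟩
  · intro hr
    refine ⟨√(r - t), ⟨Real.sqrt_pos.2 (by linarith [hr.1]), ?_⟩, ?_⟩
    · exact Real.sqrt_le_iff.2 ⟨zero_le_one, by linarith [hr.2]⟩
    · simp only []
      rw [Real.sq_sqrt (by linarith [hr.1])]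
      ring

lemma subst_sq (t : ℝ) (F : ℝ → ℝ → ℝ) :
    ∫ u in (0 : ℝ)..1, 2 * u * F (t + u ^ 2) u = ∫ r in t..(t + 1), F r (√(r - t)) := by
  rw [intervalIntegral.integral_of_le zero_le_one, intervalIntegral.integral_of_le (by linarith),
    ← image_sq, integral_image_eq_integral_abs_deriv_smul (f' := fun u => 2 * u)
      measurableSet_Ioc ?_ ?_]
  · refine setIntegral_congr_fun measurableSet_Ioc fun u hu => ?_
    rw [abs_of_pos (by have := hu.1; positivity), smul_eq_mul,
      show t + u ^ 2 - t = u ^ 2 by ring, Real.sqrt_sq hu.1.le]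
  · intro u _
    have h := ((hasDerivAt_pow 2 u).const_add t).hasDerivWithinAt (s := Ioc 0 1)
    simpa using h
  · intro u hu v hv h
    simp only [] at h
    have h1 : u ^ 2 = v ^ 2 := by linarith
    exact (sq_eq_sq₀ hu.1.le hv.1.le).1 h1

theorem t_TI : St_TI := by
  intro β C ζ g G hβ hζ hg hG hd t ht x
  set s : ℝ := √(2 * β ^ 2) with hs
  have hs0 : 0 < s := Real.sqrt_pos.2 (by positivity)
  have hss : s ^ 2 = 2 * β ^ 2 := Real.sq_sqrt (by positivity)
  set Φ : ℝ → ℝ → ℝ := fun r u => zt ζ r * A g x r (s * u) with hΦ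
  set K : ℝ → ℝ → ℝ := fun r u => if t + u ^ 2 < r then Φ r u else 0 with hK
  set CA : ℝ := ∫ y, |y| * C ∂(gaussianReal 0 1) with hCA
  have hΦbd : ∀ r u, |Φ r u| ≤ CA := by
    intro r u
    rw [hΦ]
    simp only []
    rw [abs_mul]
    have h1 := zt_bd hζ r
    have h2 := A_bd hg x r (s * u)
    have h3 : 0 ≤ CA := (abs_nonneg _).trans h2
    calc _ ≤ 1 * CA := mul_le_mul h1 h2 (abs_nonneg _) zero_le_one
      _ = CA := one_mul _
  have hΦ0 : ∀ r u, 1 < r → Φ r u = 0 := by
    intro r u hr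
    rw [hΦ]
    simp only []
    unfold zt
    rw [if_neg (not_le.2 hr), zero_mul]
  have hΦm : Measurable (fun p : ℝ × ℝ => Φ p.1 p.2) := by
    refine ((zt_meas hζ).comp measurable_fst).mul ?_
    exact ((A_cont hg x).comp (f := fun p : ℝ × ℝ => (p.1, s * p.2)) (by fun_prop)).measurable
  have hΦm2 : Measurable (fun p : ℝ × ℝ => Φ (p.1 + p.2 ^ 2) p.2) :=
    hΦm.comp (f := fun p : ℝ × ℝ => (p.1 + p.2 ^ 2, p.2)) (by fun_prop)
  have hKm : Measurable (fun p : ℝ × ℝ => K p.1 p.2) := by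
    refine Measurable.ite ?_ hΦm measurable_const
    exact measurableSet_lt (by fun_prop) (by fun_prop)
  have hKbd : ∀ r u, |K r u| ≤ CA := by
    intro r u
    rw [hK]
    simp only []
    split_ifs
    · exact hΦbd r u
    · rw [abs_zero]; exact (abs_nonneg _).trans (hΦbd r u)
  set μ1 : Measure ℝ := volume.restrict (Ioc t 1) with hμ1
  set μ2 : Measure ℝ := volume.restrict (Ioc 0 1) with hμ2
  have hI1 : Integrable (Function.uncurry fun r u => Φ (r + u ^ 2) u) (μ1.prod μ2) :=
    Integrable.of_bound hΦm2.aestronglyMeasurable CA (Eventually.of_forall fun p => hΦbd _ _)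
  have hI2 : Integrable (Function.uncurry fun r u => K r u) (μ1.prod μ2) :=
    Integrable.of_bound hKm.aestronglyMeasurable CA (Eventually.of_forall fun p => hKbd _ _)
  -- the double integral
  have hJ : ∫ r, ∫ u, Φ (r + u ^ 2) u ∂μ2 ∂μ1 = ∫ r, ∫ u, K r u ∂μ2 ∂μ1 := by
    rw [integral_integral_swap hI1, integral_integral_swap hI2]
    refine integral_congr_ae (Eventually.of_forall fun u => ?_)
    simp only []
    have h1 := intervalIntegral.integral_comp_add_right (a := t) (b := 1)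
      (fun r => Φ r u) (u ^ 2)
    have h2 := cutI (fun r => Φ r u) (fun r hr => hΦ0 r u hr) (t := t) (α := t + u ^ 2)
      (b := 1 + u ^ 2) ht.2 (by nlinarith [sq_nonneg u]) (by linarith [ht.2])
      (by nlinarith [sq_nonneg u])
    rw [h2, intervalIntegral.integral_of_le ht.2, intervalIntegral.integral_of_le ht.2] at h1
    exact h1
  have hSD : ∀ r, SD β ζ g r x = β ^ 2 * (2 / s * ∫ u, Φ (r + u ^ 2) u ∂μ2) := by
    intro r
    unfold SD
    rw [intervalIntegral.integral_of_le zero_le_one, ← integral_const_mul (2 / s)]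
    rfl
  have hIG : Integrable (fun r => zt ζ r * G r x) μ1 := by
    refine Integrable.of_bound (Measurable.aestronglyMeasurable ?_) C
      (Eventually.of_forall fun r => ?_)
    · exact (zt_meas hζ).mul
        (hG.1.comp (f := fun r : ℝ => (r, x)) (by fun_prop)).measurable
    · rw [norm_mul]
      have h1 : ‖zt ζ r‖ ≤ 1 := zt_bd hζ r
      have h2 : ‖G r x‖ ≤ C := hG.2 r x
      calc _ ≤ 1 * C := mul_le_mul h1 h2 (norm_nonneg _) zero_le_one
        _ = C := one_mul _
  have hIK : Integrable (fun r => ∫ u, K r u ∂μ2) μ1 := hI2.integral_prod_left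
  have hIΦ : Integrable (fun r => ∫ u, Φ (r + u ^ 2) u ∂μ2) μ1 := hI1.integral_prod_left
  -- left side
  have hL : SP β ζ G t x = β ^ 2 * (∫ r, zt ζ r * G r x ∂μ1 + s * ∫ r, ∫ u, K r u ∂μ2 ∂μ1) := by
    have h1 : SP β ζ G t x = β ^ 2 * ∫ u in (0 : ℝ)..1,
        2 * u * (zt ζ (t + u ^ 2) * B G x (t + u ^ 2) (s * u)) := rfl
    rw [h1, subst_sq t (fun r u => zt ζ r * B G x r (s * u)),
      cutI (fun r => zt ζ r * B G x r (s * √(r - t))) (fun r hr => by
        unfold zt; rw [if_neg (not_le.2 hr), zero_mul]) ht.2 le_rfl (by linarith)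
        (by linarith [ht.1]),
      intervalIntegral.integral_of_le ht.2, ← integral_const_mul s, ← integral_add hIG
        (hIK.const_mul s)]
    congr 1
    refine setIntegral_congr_fun measurableSet_Ioc fun r hr => ?_
    have hw0 : 0 ≤ √(r - t) := Real.sqrt_nonneg _
    have hw1 : √(r - t) ≤ 1 :=
      Real.sqrt_le_iff.2 ⟨zero_le_one, by linarith [hr.2, ht.1]⟩
    rw [if_pos hr.1, B_eq hg hG hd x r s, cutW _ hw0 hw1, mul_add]
    congr 1
    rw [intervalIntegral.integral_of_le zero_le_one, ← integral_const_mul, ← integral_const_mul]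
    refine setIntegral_congr_fun measurableSet_Ioc fun u hu => ?_
    simp only [hK, hΦ]
    have h2 : (u < √(r - t)) ↔ (t + u ^ 2 < r) := by
      rw [Real.lt_sqrt hu.1.le]
      constructor
      · intro h; linarith
      · intro h; linarith
    by_cases h3 : u < √(r - t)
    · rw [if_pos h3, if_pos (h2.1 h3)]
      ring
    · rw [if_neg h3, if_neg (fun h => h3 (h2.2 h))]
      ring
  have hR : ∫ r in t..1, β ^ 2 * (SD β ζ g r x + ζ r * G r x) =
      β ^ 2 * (∫ r, zt ζ r * G r x ∂μ1 +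
        β ^ 2 * (2 / s) * ∫ r, ∫ u, Φ (r + u ^ 2) u ∂μ2 ∂μ1) := by
    rw [intervalIntegral.integral_of_le ht.2, integral_const_mul,
      ← integral_const_mul (β ^ 2 * (2 / s)), ← integral_add hIG (hIΦ.const_mul _)]
    congr 1
    refine setIntegral_congr_fun measurableSet_Ioc fun r hr => ?_
    rw [hSD r, zt_eq ζ (ht.1.trans hr.1.le) hr.2]
    ring
  rw [hL, hR, hJ]
  have h5 : β ^ 2 * (2 / s) = s := by
    field_simp
    linarith
  rw [h5]

end Pool.TH316.AT.TI
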