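import Pool.Agent.TH198.AT.Conv

/-!
# Existence of the solution of the Parisi equation for every distribution function: pieces

`a = 2 β²`. The substitution `r = t + u²` removes the singularity of the kernel of `∂_x P_{r-t}`.
-/

set_option autoImplicit false

open MeasureTheory ProbabilityTheory Set

namespace Pool.TH316.AT

open Pool.TH198.AT

/-- the distribution function, `0` right of `1` -/
noncomputable def zt (ζ : ℝ → ℝ) (s : ℝ) : ℝ := if s ≤ 1 then ζ (max 0 s) else 0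

/-- clip to `[-M, M]` -/
noncomputable def cl (M u : ℝ) : ℝ := max (-M) (min u M)

/-- clamp to `[0,1]` -/
noncomputable def ck (t : ℝ) : ℝ := max 0 (min t 1)

/-- the Huber function, `hub' = 2 cl 1` -/
noncomputable def hub (u : ℝ) : ℝ := if |u| ≤ 1 then u ^ 2 else 2 * |u| - 1

/-- `β² ∫_t^1 ζ(r) P_{r-t} g(r,·)(x) dr`, with `r = t + u²` -/
noncomputable def SP (β : ℝ) (ζ : ℝ → ℝ) (g : ℝ → ℝ → ℝ) (t x : ℝ) : ℝ :=
  β ^ 2 * ∫ u in (0 : ℝ)..1, 2 * u *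
    (zt ζ (t + u ^ 2) * E1 (fun y => g (t + u ^ 2) (x + √(2 * β ^ 2) * u * y)))

/-- `β² ∫_t^1 ζ(r) ∂_x P_{r-t} g(r,·)(x) dr`, with `r = t + u²` -/
noncomputable def SD (β : ℝ) (ζ : ℝ → ℝ) (g : ℝ → ℝ → ℝ) (t x : ℝ) : ℝ :=
  β ^ 2 * ∫ u in (0 : ℝ)..1, 2 / √(2 * β ^ 2) *
    (zt ζ (t + u ^ 2) * E1 (fun y => y * g (t + u ^ 2) (x + √(2 * β ^ 2) * u * y)))

/-- the heat semigroup from time `1` down to `t` -/
noncomputable def PP (β : ℝ) (g : ℝ → ℝ) (t x : ℝ) : ℝ :=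
  E1 (fun y => g (x + √(2 * β ^ 2 * (1 - t)) * y))

noncomputable def WW (β : ℝ) (ζ : ℝ → ℝ) (g : ℝ → ℝ → ℝ) (t x : ℝ) : ℝ :=
  PP β Real.tanh t x + SP β ζ g t x

noncomputable def ZZ (β : ℝ) (ζ : ℝ → ℝ) (g : ℝ → ℝ → ℝ) (t x : ℝ) : ℝ :=
  PP β (fun x => sech x ^ 2) t x + SD β ζ g t x

/-- `g` is jointly continuous and bounded by `C` -/
def BC (C : ℝ) (g : ℝ → ℝ → ℝ) : Prop :=
  Continuous (fun p : ℝ × ℝ => g p.1 p.2) ∧ ∀ t x, |g t x| ≤ C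

/-- EX-CT: joint continuity and bounds -/
def St_CT : Prop :=
  ∀ (β C : ℝ) (ζ : ℝ → ℝ) (g : ℝ → ℝ → ℝ), 0 < β → IsCdf ζ → BC C g →
    BC (β ^ 2 * C) (fun t x => SP β ζ g (ck t) x) ∧
    BC (2 * β * C) (fun t x => SD β ζ g (ck t) x)

/-- EX-DX: derivatives in `x` -/
def St_DX : Prop :=
  ∀ (β C : ℝ) (ζ : ℝ → ℝ) (g G : ℝ → ℝ → ℝ), 0 < β → IsCdf ζ → BC C g →
    (∀ t ∈ Icc (0 : ℝ) 1, ∀ x, HasDerivAt (fun x => SP β ζ g t x) (SD β ζ g t x) x) ∧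
    (BC C G → (∀ t x, HasDerivAt (G t) (g t x) x) →
      ∀ t ∈ Icc (0 : ℝ) 1, ∀ x, HasDerivAt (fun x => SP β ζ G t x) (SP β ζ g t x) x)

/-- EX-TI: the integrated equation -/
def St_TI : Prop :=
  ∀ (β C : ℝ) (ζ : ℝ → ℝ) (g G : ℝ → ℝ → ℝ), 0 < β → IsCdf ζ → BC C g → BC C G →
    (∀ t x, HasDerivAt (G t) (g t x) x) →
    ∀ t ∈ Icc (0 : ℝ) 1, ∀ x,
      SP β ζ G t x = ∫ r in t..1, β ^ 2 * (SD β ζ g r x + ζ r * G r x)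

/-- EX-PT: the heat part -/
def St_PT : Prop :=
  ∀ β : ℝ, 0 < β →
    BC 1 (fun t x => PP β Real.tanh (ck t) x) ∧
    BC 1 (fun t x => PP β (fun x => sech x ^ 2) (ck t) x) ∧
    ∀ t ∈ Icc (0 : ℝ) 1, ∀ x,
      HasDerivAt (fun x => PP β (fun x => Real.log (Real.cosh x)) t x) (PP β Real.tanh t x) x ∧
      HasDerivAt (fun x => PP β Real.tanh t x) (PP β (fun x => sech x ^ 2) t x) x ∧
      PP β (fun x => Real.log (Real.cosh x)) t x = Real.log (Real.cosh x) +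
        ∫ r in t..1, β ^ 2 * PP β (fun x => sech x ^ 2) r x

/-- EX-FP: the fixed point -/
def St_FP : Prop :=
  ∀ (β : ℝ) (ζ : ℝ → ℝ), 0 < β → IsCdf ζ → ∃ (C : ℝ) (g : ℝ → ℝ → ℝ), BC C g ∧
    ∀ t x, g t x = 2 * cl 1 (WW β ζ g (ck t) x) * ZZ β ζ g (ck t) x

/-- EX-MX: the gradient bound -/
def St_MX : Prop :=
  ∀ (β C : ℝ) (ζ : ℝ → ℝ) (f W Z : ℝ → ℝ → ℝ), 0 < β → IsCdf ζ →
    (∀ t ∈ Icc (0 : ℝ) 1, ∀ x, HasDerivAt (f t) (W t x) x ∧ HasDerivAt (W t) (Z t x) x) →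
    BC C W → BC C Z →
    (∀ t ∈ Icc (0 : ℝ) 1, ∀ x, f t x =
      Real.log (Real.cosh x) + ∫ r in t..1, β ^ 2 * (Z r x + ζ r * hub (W r x))) →
    ∀ t ∈ Icc (0 : ℝ) 1, ∀ x, |W t x| ≤ 1

end Pool.TH316.AT
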