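import Pool.Agent.TH316.AT.ExTI

/-!
# EX-CT: continuity
-/

set_option autoImplicit false

open MeasureTheory ProbabilityTheory Set Filter Topology

namespace Pool.TH316.AT.CT

open Pool.TH198.AT Pool.TH316.AT Pool.TH316.AT.TI

lemma int_sq : Integrable (fun y : ℝ => y ^ 2) (gaussianReal 0 1) := by
  have h := (memLp_id_gaussianReal (μ := 0) (v := 1) 2).integrable_norm_pow (by norm_num)
  refine h.congr (Eventually.of_forall fun y => ?_)
  simp

lemma mean_sq : ∫ y, y ^ 2 ∂(gaussianReal 0 1) = 1 := by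
  have h1 : Var[fun x => x; gaussianReal 0 1] = 1 := by
    simp
  rw [variance_eq_integral (by fun_prop)] at h1
  simpa using h1

lemma mean_abs : ∫ y, |y| ∂(gaussianReal 0 1) ≤ 1 := by
  have h1 : ∫ y, |y| ∂(gaussianReal 0 1) ≤ ∫ y, (1 + y ^ 2) / 2 ∂(gaussianReal 0 1) := by
    refine integral_mono int_abs (((integrable_const 1).add int_sq).div_const 2) fun y => ?_
    simp only []
    nlinarith [sq_nonneg (|y| - 1), sq_abs y]
  refine h1.trans (le_of_eq ?_)
  rw [integral_div, integral_add (integrable_const 1) int_sq, mean_sq]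
  simp

lemma zt_cont {ζ : ℝ → ℝ} (hζ : IsCdf ζ) : {s | ¬ ContinuousAt (zt ζ) s}.Countable := by
  have hm : Monotone (fun s => ζ (max 0 (min s 1))) := by
    intro s s' h
    refine hζ.1 ⟨le_max_left _ _, max_le zero_le_one (min_le_right _ _)⟩
      ⟨le_max_left _ _, max_le zero_le_one (min_le_right _ _)⟩ ?_
    exact max_le_max le_rfl (min_le_min_right _ h)
  refine (hm.countable_not_continuousAt.union (countable_singleton 1)).mono ?_
  intro s hs
  by_contra h
  rw [mem_union, not_or] at h
  obtain ⟨h1, h2⟩ := h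
  have h1' : ContinuousAt (fun s => ζ (max 0 (min s 1))) s := by
    by_contra h3; exact h1 h3
  apply hs
  rcases lt_trichotomy s 1 with h3 | h3 | h3
  · refine h1'.congr ?_
    filter_upwards [Iio_mem_nhds h3] with r hr
    unfold zt
    rw [if_pos (le_of_lt hr), min_eq_left (le_of_lt hr)]
  · exact absurd h3 h2
  · refine (continuousAt_const (y := (0 : ℝ))).congr ?_
    filter_upwards [Ioi_mem_nhds h3] with r hr
    unfold zt
    rw [if_neg (not_le.2 hr)]

lemma ae_cont {ζ : ℝ → ℝ} (hζ : IsCdf ζ) (c : ℝ) :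
    ∀ᵐ u ∂(volume : Measure ℝ), u ∈ uIoc (0 : ℝ) 1 → ContinuousAt (zt ζ) (c + u ^ 2) := by
  have hS : (uIoc (0 : ℝ) 1 ∩ {u | ¬ ContinuousAt (zt ζ) (c + u ^ 2)}).Countable := by
    refine MapsTo.countable_of_injOn (f := fun u : ℝ => c + u ^ 2) (t := {s | ¬ ContinuousAt (zt ζ) s})
      ?_ ?_ (zt_cont hζ)
    · intro u hu; exact hu.2
    · intro u hu v hv h
      rw [uIoc_of_le zero_le_one] at hu hv
      have h1 : u ^ 2 = v ^ 2 := by
        have : c + u ^ 2 = c + v ^ 2 := h
        linarith
      exact (sq_eq_sq₀ hu.1.1.le hv.1.1.le).1 h1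
  filter_upwards [hS.ae_notMem volume] with u hu hu1
  by_contra h
  exact hu ⟨hu1, h⟩

lemma ck_cont : Continuous ck := by
  unfold ck
  fun_prop

/-- the general integral -/
lemma gen_cont {ζ : ℝ → ℝ} (hζ : IsCdf ζ) (c : ℝ → ℝ) (hc : Continuous c) (F : ℝ → ℝ → ℝ → ℝ)
    (hF : Continuous (fun p : ℝ × ℝ × ℝ => F p.1 p.2.1 p.2.2)) (D : ℝ)
    (hD : ∀ r x u, |F r x u| ≤ D) :
    Continuous (fun p : ℝ × ℝ => ∫ u in (0 : ℝ)..1,
      c u * (zt ζ (ck p.1 + u ^ 2) * F (ck p.1 + u ^ 2) p.2 u)) := by
  rw [continuous_iff_continuousAt]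
  intro p0
  refine intervalIntegral.continuousAt_of_dominated_interval (bound := fun u => |c u| * D)
    ?_ ?_ ?_ ?_
  · refine Eventually.of_forall fun p => Measurable.aestronglyMeasurable ?_
    refine hc.measurable.mul (((zt_meas hζ).comp (by fun_prop)).mul ?_)
    exact (hF.comp (f := fun u : ℝ => (ck p.1 + u ^ 2, p.2, u)) (by fun_prop)).measurable
  · refine Eventually.of_forall fun p => Eventually.of_forall fun u _ => ?_
    rw [norm_mul, norm_mul]
    refine mul_le_mul_of_nonneg_left ?_ (norm_nonneg _)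
    have h1 : ‖zt ζ (ck p.1 + u ^ 2)‖ ≤ 1 := zt_bd hζ _
    calc _ ≤ 1 * D := mul_le_mul h1 (hD _ _ _) (abs_nonneg _) zero_le_one
      _ = D := one_mul _
  · exact (hc.abs.mul continuous_const).intervalIntegrable _ _
  · filter_upwards [ae_cont hζ (ck p0.1)] with u hu hu1
    refine continuousAt_const.mul (ContinuousAt.mul ?_ ?_)
    · refine ContinuousAt.comp (f := fun p : ℝ × ℝ => ck p.1 + u ^ 2) (hu hu1) ?_
      exact ((ck_cont.comp continuous_fst).add continuous_const).continuousAt
    · refine (hF.comp (f := fun p : ℝ × ℝ => (ck p.1 + u ^ 2, p.2, u)) ?_).continuousAt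
      exact ((ck_cont.comp continuous_fst).add continuous_const).prodMk
        (continuous_snd.prodMk continuous_const)

theorem t_CT : St_CT := by
  intro β C ζ g hβ hζ hg
  set s : ℝ := √(2 * β ^ 2) with hs
  have hs0 : 0 < s := Real.sqrt_pos.2 (by positivity)
  have hss : s ^ 2 = 2 * β ^ 2 := Real.sq_sqrt (by positivity)
  have hC0 : 0 ≤ C := (abs_nonneg _).trans (hg.2 0 0)
  have hF1 : Continuous (fun p : ℝ × ℝ × ℝ => E1 (fun y => g p.1 (p.2.1 + s * p.2.2 * y))) := by
    unfold E1
    refine continuous_of_dominated (bound := fun _ => C) ?_ ?_ (integrable_const C) ?_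
    · intro p
      refine Continuous.aestronglyMeasurable ?_
      exact hg.1.comp (f := fun y : ℝ => (p.1, p.2.1 + s * p.2.2 * y)) (by fun_prop)
    · intro p
      exact Eventually.of_forall fun y => hg.2 _ _
    · refine Eventually.of_forall fun y => ?_
      exact hg.1.comp (f := fun p : ℝ × ℝ × ℝ => (p.1, p.2.1 + s * p.2.2 * y)) (by fun_prop)
  have hF2 : Continuous (fun p : ℝ × ℝ × ℝ => E1 (fun y => y * g p.1 (p.2.1 + s * p.2.2 * y))) := by
    unfold E1
    refine continuous_of_dominated (bound := fun y => |y| * C) ?_ ?_ (int_abs.mul_const C) ?_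
    · intro p
      refine Continuous.aestronglyMeasurable ?_
      exact continuous_id.mul
        (hg.1.comp (f := fun y : ℝ => (p.1, p.2.1 + s * p.2.2 * y)) (by fun_prop))
    · intro p
      refine Eventually.of_forall fun y => ?_
      rw [norm_mul]
      exact mul_le_mul_of_nonneg_left (hg.2 _ _) (norm_nonneg _)
    · refine Eventually.of_forall fun y => ?_
      exact continuous_const.mul
        (hg.1.comp (f := fun p : ℝ × ℝ × ℝ => (p.1, p.2.1 + s * p.2.2 * y)) (by fun_prop))
  have hB1 : ∀ r x u, |E1 (fun y => g r (x + s * u * y))| ≤ C := by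
    intro r x u
    have h := norm_integral_le_of_norm_le_const (μ := gaussianReal 0 1)
      (f := fun y => g r (x + s * u * y)) (C := C) (Eventually.of_forall fun y => hg.2 _ _)
    simpa [E1] using h
  have hB2 : ∀ r x u, |E1 (fun y => y * g r (x + s * u * y))| ≤ C := by
    intro r x u
    refine (A_bd hg x r (s * u)).trans ?_
    rw [integral_mul_const]
    calc _ ≤ 1 * C := mul_le_mul_of_nonneg_right mean_abs hC0
      _ = C := one_mul _
  have hz : ∀ v, |zt ζ v| ≤ 1 := zt_bd hζ
  refine ⟨⟨?_, ?_⟩, ⟨?_, ?_⟩⟩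
  · exact continuous_const.mul (gen_cont hζ (fun u => 2 * u) (by fun_prop)
      (fun r x u => E1 (fun y => g r (x + s * u * y))) hF1 C hB1)
  · intro t x
    unfold SP
    rw [abs_mul, abs_of_nonneg (sq_nonneg β)]
    refine mul_le_mul_of_nonneg_left ?_ (sq_nonneg β)
    have h := intervalIntegral.norm_integral_le_of_norm_le (a := (0 : ℝ)) (b := 1)
      (μ := volume) (g := fun u => 2 * u * C)
      (f := fun u => 2 * u * (zt ζ (ck t + u ^ 2) *
        E1 (fun y => g (ck t + u ^ 2) (x + s * u * y)))) zero_le_one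
      (Eventually.of_forall fun u hu => by
        have hu0 : (0 : ℝ) ≤ 2 * u := by have := hu.1; positivity
        rw [norm_mul (2 * u), norm_mul (zt ζ _), Real.norm_of_nonneg hu0]
        refine mul_le_mul_of_nonneg_left ?_ hu0
        calc _ ≤ 1 * C := mul_le_mul (hz _) (hB1 _ _ _) (abs_nonneg _) zero_le_one
          _ = C := one_mul _)
      ((by fun_prop : Continuous fun u : ℝ => 2 * u * C).intervalIntegrable _ _)
    refine h.trans (le_of_eq ?_)
    rw [intervalIntegral.integral_mul_const, intervalIntegral.integral_const_mul, integral_id]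
    ring
  · exact continuous_const.mul (gen_cont hζ (fun _ => 2 / s) (by fun_prop)
      (fun r x u => E1 (fun y => y * g r (x + s * u * y))) hF2 C hB2)
  · intro t x
    unfold SD
    rw [abs_mul, abs_of_nonneg (sq_nonneg β)]
    have h := intervalIntegral.norm_integral_le_of_norm_le (a := (0 : ℝ)) (b := 1)
      (μ := volume) (g := fun _ => 2 / s * C)
      (f := fun u => 2 / s * (zt ζ (ck t + u ^ 2) *
        E1 (fun y => y * g (ck t + u ^ 2) (x + s * u * y)))) zero_le_one
      (Eventually.of_forall fun u hu => by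
        rw [norm_mul, norm_mul, Real.norm_of_nonneg (by positivity)]
        refine mul_le_mul_of_nonneg_left ?_ (by positivity)
        calc _ ≤ 1 * C := mul_le_mul (hz _) (hB2 _ _ _) (abs_nonneg _) zero_le_one
          _ = C := one_mul _)
      (continuous_const.intervalIntegrable _ _)
    have h2 : ∫ _u in (0 : ℝ)..1, 2 / s * C = 2 / s * C := by simp
    rw [h2] at h
    refine (mul_le_mul_of_nonneg_left h (sq_nonneg β)).trans ?_
    have h5 : β ^ 2 * (2 / s) = s := by
      field_simp
      linarith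
    have h6 : s ≤ 2 * β := by
      rw [hs]
      refine Real.sqrt_le_iff.2 ⟨by positivity, ?_⟩
      nlinarith [sq_nonneg β]
    calc β ^ 2 * (2 / s * C) = (β ^ 2 * (2 / s)) * C := by ring
      _ = s * C := by rw [h5]
      _ ≤ 2 * β * C := mul_le_mul_of_nonneg_right h6 hC0

end Pool.TH316.AT.CT
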