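import Pool.Agent.TH316.AT.ExAsm
import Pool.Agent.TH316.AT.ExTI
import Pool.Agent.TH316.AT.ExCT
import Pool.Agent.TH283.AT.EXDX
import Pool.Agent.TH283.AT.EXPT
import Pool.Agent.TH58.AT.EXFP
import Pool.Agent.TH367.AT.MX
import Pool.Agent.TH479.AT.STEIN
import Pool.Agent.TH811.AT.HEATX
import Pool.Agent.TH891.AT.HEAT

/-!
# Existence of the solution of the Parisi equation for every distribution function
-/

set_option autoImplicit false

namespace Pool.TH316.AT

open Pool.TH198.AT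

/-- for every distribution function the Parisi equation has a solution -/
theorem ex : St_EX :=
  t_EX Pool.TH316.AT.CT.t_CT
    (Pool.TH283.AT.t_DX Pool.TH479.AT.t_STEIN Pool.TH811.AT.t_HEATX)
    Pool.TH316.AT.TI.t_TI
    (Pool.TH283.AT.t_PT (Pool.TH198.AT.t_HEAT Pool.TH479.AT.t_STEIN) Pool.TH811.AT.t_HEATX)
    (Pool.TH58.AT.t_FP Pool.TH316.AT.CT.t_CT
      (Pool.TH283.AT.t_PT (Pool.TH198.AT.t_HEAT Pool.TH479.AT.t_STEIN) Pool.TH811.AT.t_HEATX))
    Pool.TH367.AT.t_MX

end Pool.TH316.AT
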